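import Pool.Agent.Helper50.AY.St

/-!
# Module UT of project AY: all nonzero polynomials of small degree have values in `U`
-/

set_option autoImplicit false

namespace Pool.Agent.Helper40.AY

open Pool.Agent.Helper50.AY Pool.Agent.Helper43.GD Polynomial

theorem in_mul {L A : Type} [CommRing L] [Group A] (Q : Fr L A) {a b : L} (ha : Q.In a)
    (hb : Q.In b) : Q.In (a * b) := by
  obtain ⟨u, hu, rfl⟩ := ha
  obtain ⟨v, hv, rfl⟩ := hb
  exact ⟨u * v, Q.U.mul_mem hu hv, by rw [Units.val_mul]⟩

theorem not_unit_degree {p : ℕ} [Fact p.Prime] {a : (ZMod p)[X]} (ha0 : a ≠ 0)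
    (ha : ¬ IsUnit a) : a.natDegree ≠ 0 := by
  intro h
  apply ha
  rw [eq_C_of_natDegree_eq_zero h]
  rw [isUnit_C]
  apply IsUnit.mk0
  intro h0
  apply ha0
  rw [eq_C_of_natDegree_eq_zero h, h0, C_0]

theorem hUT (hCU : StCU) (hUT3 : StUT3) (hRA : StRA) : StUT := by
  intro L A _ _ Q p _ k x hx hxU ev hev
  have main : ∀ (d : ℕ) (f : (ZMod p)[X]), f.natDegree = d → f ≠ 0 →
      f.natDegree < p ^ (k + 1) → Q.In (ev f) := by
    intro d
    induction d using Nat.strong_induction_on with
    | _ d ih =>
      intro f hfd hf0 hf
      rcases Nat.lt_or_ge d 2 with hd | hd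
      · rcases Nat.eq_zero_or_pos d with hd0 | hd0
        · -- constants
          have h0 : f.natDegree = 0 := by omega
          have hc : f = C (f.coeff 0) := eq_C_of_natDegree_eq_zero h0
          rw [hc]
          apply hCU L A Q p k x hx hxU ev hev
          intro hz
          apply hf0
          rw [hc, hz, C_0]
        · -- linear polynomials
          have h1 : f.natDegree = 1 := by omega
          obtain ⟨a, ha, b, hb⟩ := natDegree_eq_one.1 h1
          have hj : ∀ j : ZMod p, Q.In (ev (X + C j)) := by
            intro j
            obtain ⟨n, hn⟩ := (hRA L p k x hx).2.2.1 j.val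
            refine ⟨x ^ n, Q.U.pow_mem hxU n, ?_⟩
            rw [Units.val_pow_eq_pow_val, hn, map_add, hev]
            congr 1
            have e : C j = ((j.val : ℕ) : (ZMod p)[X]) := by
              rw [← map_natCast (C : ZMod p →+* (ZMod p)[X]), ZMod.natCast_zmod_val]
            rw [e, map_natCast]
          have hfe : f = C a * (X + C (a⁻¹ * b)) := by
            rw [← hb, mul_add, ← C_mul, mul_inv_cancel_left₀ ha]
          rw [hfe, map_mul]
          exact in_mul Q (hCU L A Q p k x hx hxU ev hev a ha) (hj _)
      · by_cases hirr : Irreducible f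
        · apply hUT3 L A Q p k x hx hxU ev hev f hirr (by omega) hf
          intro g hg0 hg
          exact ih g.natDegree (by omega) g rfl hg0 (by omega)
        · have hnu : ¬ IsUnit f := by
            intro hu
            have := natDegree_eq_zero_of_isUnit hu
            omega
          rw [irreducible_iff] at hirr
          push Not at hirr
          obtain ⟨a, b, hab, ha, hb⟩ := hirr hnu
          have ha0 : a ≠ 0 := by
            intro h
            apply hf0
            rw [hab, h, zero_mul]
          have hb0 : b ≠ 0 := by
            intro h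
            apply hf0
            rw [hab, h, mul_zero]
          have hda := not_unit_degree ha0 ha
          have hdb := not_unit_degree hb0 hb
          have hdeg : f.natDegree = a.natDegree + b.natDegree := by
            rw [hab, natDegree_mul ha0 hb0]
          rw [hab, map_mul]
          exact in_mul Q (ih a.natDegree (by omega) a rfl ha0 (by omega))
            (ih b.natDegree (by omega) b rfl hb0 (by omega))
  intro f hf0 hf
  exact main f.natDegree f rfl hf0 hf

end Pool.Agent.Helper40.AY
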